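import Pool.Agent.helper27.TD.Spec2
import Pool.Agent.helper8.ZDM.ZL

/-!
# Row td:ZQ (MP_16912e_nt): `q`-adic divisibility of the determinant, Catalan series
-/

set_option autoImplicit false

namespace Pool.Agent.helper27.TD

open Finset Polynomial

theorem ZQ_inv {q x : ℤ} (hq : Prime q) (hx : ¬ q ∣ x) (N : ℕ) :
    ∃ y : ℤ, x * y ≡ 1 [ZMOD q ^ N] := by
  have h1 : IsCoprime x q := ((Prime.coprime_iff_not_dvd hq).2 hx).symm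
  have h2 : IsCoprime x (q ^ N) := h1.pow_right
  obtain ⟨a, b, hab⟩ := h2
  refine ⟨a, ?_⟩
  rw [Int.modEq_comm, Int.modEq_iff_dvd]
  exact ⟨-b, by linear_combination hab⟩

theorem ZQ_pt {q : ℤ} (hq : Prime q) (hq2 : ¬ q ∣ 2) (N j : ℕ) (hjN : j ≤ N) (L e : ℤ)
    (he : q ^ j ∣ e) (P : Pt) (h0 : ¬ q ∣ P 0) (h2 : ¬ q ∣ P 2)
    (hE : P 3 * (P 0 ^ 2 + L * P 1 ^ 2) - 2 * P 2 * P 0 * P 1 = e) :
    ∃ σ τ : ℤ, P 0 * σ ≡ P 1 [ZMOD q ^ N] ∧ 2 * P 2 * τ ≡ P 3 [ZMOD q ^ N] ∧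
      q ^ j ∣ τ * (1 + L * σ ^ 2) - σ := by
  obtain ⟨g', hg'⟩ := ZQ_inv hq h0 N
  have h3 : ¬ q ∣ 2 * P 2 := fun h => (hq.dvd_or_dvd h).elim hq2 h2
  obtain ⟨u', hu'⟩ := ZQ_inv hq h3 N
  have e1 : P 0 * (g' * P 1) ≡ P 1 [ZMOD q ^ N] := by
    have := hg'.mul_right (P 1)
    rwa [one_mul, mul_assoc] at this
  have e2 : 2 * P 2 * (u' * P 3) ≡ P 3 [ZMOD q ^ N] := by
    have := hu'.mul_right (P 3)
    rwa [one_mul, mul_assoc] at this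
  refine ⟨g' * P 1, u' * P 3, e1, e2, ?_⟩
  set σ := g' * P 1 with hσ
  set τ := u' * P 3 with hτ
  have f1 : P 0 * σ ≡ P 1 [ZMOD q ^ j] := e1.of_dvd (pow_dvd_pow q hjN)
  have f2 : 2 * P 2 * τ ≡ P 3 [ZMOD q ^ j] := e2.of_dvd (pow_dvd_pow q hjN)
  have f3 : 2 * P 2 * P 0 ^ 2 * (τ * (1 + L * σ ^ 2) - σ) ≡
      P 3 * (P 0 ^ 2 + L * P 1 ^ 2) - 2 * P 2 * P 0 * P 1 [ZMOD q ^ j] := by
    have f4 : 2 * P 2 * P 0 ^ 2 * (τ * (1 + L * σ ^ 2) - σ) =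
        (2 * P 2 * τ) * (P 0 ^ 2 + L * (P 0 * σ) ^ 2) - 2 * P 2 * P 0 * (P 0 * σ) := by ring
    rw [f4]
    exact (f2.mul ((f1.pow 2).mul_left L |>.add_left (P 0 ^ 2))).sub (f1.mul_left _)
  rw [hE] at f3
  have f5 : q ^ j ∣ 2 * P 2 * P 0 ^ 2 * (τ * (1 + L * σ ^ 2) - σ) := by
    have f6 := (Int.modEq_iff_dvd.1 f3)
    have f7 := dvd_sub he f6
    rwa [sub_sub_cancel] at f7
  have f8 : IsCoprime (q ^ j) (2 * P 2 * P 0 ^ 2) := by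
    have f9 : ¬ q ∣ 2 * P 2 * P 0 ^ 2 := fun h =>
      (hq.dvd_or_dvd h).elim h3 (fun h' => h0 (hq.dvd_of_dvd_pow h'))
    exact IsCoprime.pow_left ((Prime.coprime_iff_not_dvd hq).2 f9)
  exact f8.dvd_of_dvd_mul_left f5

theorem ZQ : ZQ_stmt := by
  intro b l j ρ q L e hqp hq2 hl hL he hρ P hP
  have hq : Prime (q : ℤ) := Nat.prime_iff_prime_int.1 hqp
  have hq2' : ¬ (q : ℤ) ∣ 2 := by
    intro h
    have h1 : q ∣ 2 := by exact_mod_cast h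
    exact hq2 ((Nat.prime_dvd_prime_iff_eq hqp Nat.prime_two).1 h1)
  choose σ τ h1 h2 h3 using fun i => ZQ_pt hq hq2' (ρ + j) j (by omega) L e he (P i) (hP i).1
    (hP i).2.1 (hP i).2.2
  have hK : (q : ℤ) ^ j ∣ L ^ j := by
    refine dvd_trans ?_ (pow_dvd_pow_of_dvd hL j)
    rw [← pow_mul]
    exact pow_dvd_pow _ (by nlinarith)
  have hR : ∀ h : ℕ, h ≤ b + 1 → (q : ℤ) ^ ρ ∣ ((q : ℤ) ^ j) ^ (b + 1 - h) *
      L ^ (h * (h - 1) / 2) := by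
    intro h hh
    refine dvd_trans (pow_dvd_pow _ (hρ h hh)) ?_
    rw [pow_add, pow_mul', pow_mul]
    exact mul_dvd_mul (by rw [← pow_mul]) (pow_dvd_pow_of_dvd hL _)
  have hZ := Pool.Agent.helper8.ZDM.ZL b j L ((q : ℤ) ^ j) ((q : ℤ) ^ ρ) hK hR σ τ h3
  set M' : Matrix (Ix b) (Ix b) ℤ := Matrix.of (fun (i : Ix b) (c : Ix b) =>
    (P i 0 * P i 2 ^ b) * (Matrix.of (fun (i : Ix b) (c : Ix b) => (2 : ℤ) ^ (c.2 : ℕ) *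
      (Matrix.of (fun (i : Ix b) (c : Ix b) => σ i ^ (c.1 : ℕ) * τ i ^ (c.2 : ℕ))) i c)) i c)
    with hM'
  have hdet : M'.det = (∏ i, (P i 0 * P i 2 ^ b)) * ((∏ c : Ix b, (2 : ℤ) ^ (c.2 : ℕ)) *
      (Matrix.of (fun (i : Ix b) (c : Ix b) => σ i ^ (c.1 : ℕ) * τ i ^ (c.2 : ℕ))).det) := by
    rw [hM', Matrix.det_mul_column, Matrix.det_mul_row]
  have hM'd : (q : ℤ) ^ ρ ∣ M'.det := by
    rw [hdet]
    exact Dvd.dvd.mul_left (Dvd.dvd.mul_left hZ _) _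
  have hmod : ∀ i c, mat b P i c ≡ M' i c [ZMOD (q : ℤ) ^ ρ] := by
    intro i ⟨a, c⟩
    have g1 : P i 0 * σ i ≡ P i 1 [ZMOD (q : ℤ) ^ ρ] :=
      (h1 i).of_dvd (pow_dvd_pow _ (by omega))
    have g2 : 2 * P i 2 * τ i ≡ P i 3 [ZMOD (q : ℤ) ^ ρ] :=
      (h2 i).of_dvd (pow_dvd_pow _ (by omega))
    have hc : (c : ℕ) ≤ b := by have := c.2; omega
    have ha : (a : ℕ) ≤ 1 := by have := a.2; omega
    have e1 : M' i (a, c) = P i 0 ^ (1 - (a : ℕ)) * (P i 0 * σ i) ^ (a : ℕ) *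
        (P i 2 ^ (b - (c : ℕ)) * (2 * P i 2 * τ i) ^ (c : ℕ)) := by
      simp only [hM', Matrix.of_apply]
      have e2 : P i 0 ^ (1 - (a : ℕ)) * P i 0 ^ (a : ℕ) = P i 0 := by
        rw [← pow_add, Nat.sub_add_cancel ha, pow_one]
      have e3 : P i 2 ^ (b - (c : ℕ)) * P i 2 ^ (c : ℕ) = P i 2 ^ b := by
        rw [← pow_add, Nat.sub_add_cancel hc]
      rw [mul_pow, mul_pow, mul_pow, ← e3]
      nth_rewrite 1 [← e2]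
      ring
    rw [e1]
    show P i 0 ^ (1 - (a : ℕ)) * P i 1 ^ (a : ℕ) * (P i 2 ^ (b - (c : ℕ)) * P i 3 ^ (c : ℕ)) ≡ _
      [ZMOD _]
    exact ((g1.symm.pow _).mul_left _).mul ((g2.symm.pow _).mul_left _)
  have hdm : (mat b P).det ≡ M'.det [ZMOD (q : ℤ) ^ ρ] := by
    rw [Matrix.det_apply, Matrix.det_apply]
    apply Int.ModEq.sum
    intro s _
    rw [Units.smul_def, Units.smul_def, zsmul_eq_mul, zsmul_eq_mul]
    apply Int.ModEq.mul_left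
    apply Int.ModEq.prod
    intro i _
    exact hmod _ _
  exact (Int.ModEq.dvd_iff hdm).2 hM'd

end Pool.Agent.helper27.TD
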